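import Pool.Agent.W2helper43.BD.Stm

/-!
Project BD, piece PHI
-/

set_option autoImplicit false

open CategoryTheory

namespace Pool.Agent.W2helper81.BD

open Pool.Agent.W2helper43.BD

theorem p_phi : P_PHI := by
  intro hE hC Λ V G Γ _ _ _ _ _ _ D
  obtain ⟨h1, h2, h3, h4, h5⟩ := hE D
  have hee : D.e * D.e = D.e := h1
  have hmul : ∀ a b, D.f a * D.f b = D.f (a * b) := by
    intro a b
    unfold Dat.f
    rw [map_mul, mul_assoc (D.ι a), ← mul_assoc D.e, ← h4 b, mul_assoc (D.ι b), hee, mul_assoc]
  refine ⟨?_, hmul, ?_, ?_, ?_⟩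
  · intro a b hab
    ext g
    have ha := (hC D a).1 g 1
    have hb := (hC D b).1 g 1
    rw [hab, hb] at ha
    rw [inv_one, map_one, mul_one] at ha
    have hc := D.hc
    calc a.coeff g = a.coeff g * (D.c * (Nat.card V : Λ)) := by rw [hc, mul_one]
      _ = (a.coeff g * D.c) * (Nat.card V : Λ) := by ring
      _ = (b.coeff g * D.c) * (Nat.card V : Λ) := by rw [ha]
      _ = b.coeff g * (D.c * (Nat.card V : Λ)) := by ring
      _ = b.coeff g := by rw [hc, mul_one]
  · intro a b
    unfold Dat.f
    rw [map_add, add_mul]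
  · unfold Dat.f
    rw [map_one, one_mul]
  · intro r
    induction r using MonoidAlgebra.induction_linear with
    | zero => exact ⟨0, by unfold Dat.f; simp⟩
    | add x y hx hy =>
      obtain ⟨a, ha⟩ := hx
      obtain ⟨b, hb⟩ := hy
      refine ⟨a + b, ?_⟩
      rw [mul_add, add_mul, ha, hb]
      unfold Dat.f
      rw [map_add, add_mul]
    | single γ x =>
      by_cases hγ : γ ∈ D.I
      · obtain ⟨v, g, rfl⟩ := hγ
        refine ⟨MonoidAlgebra.single g (D.θ v * x), ?_⟩
        have e1 : (MonoidAlgebra.single (D.iV v * D.iG g) x : MonoidAlgebra Λ Γ) =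
            MonoidAlgebra.single (D.iV v) 1 * D.ι (MonoidAlgebra.single g x) := by
          unfold Dat.ι
          rw [MonoidAlgebra.mapDomainRingHom_apply, MonoidAlgebra.mapDomain_single,
            MonoidAlgebra.single_mul_single, one_mul]
        have e2 : (MonoidAlgebra.single g (D.θ v * x) : MonoidAlgebra Λ G) =
            D.θ v • MonoidAlgebra.single g x := by
          rw [MonoidAlgebra.smul_single, smul_eq_mul]
        have e3 : D.ι (D.θ v • MonoidAlgebra.single g x) = D.θ v • D.ι (MonoidAlgebra.single g x) := by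
          unfold Dat.ι
          simp [MonoidAlgebra.mapDomainRingHom_apply]
        rw [e1, e2]
        unfold Dat.f
        rw [e3, ← mul_assoc, h3 v, smul_mul_assoc, smul_mul_assoc, smul_mul_assoc, ← h4, mul_assoc, hee]
      · refine ⟨0, ?_⟩
        have e1 : (MonoidAlgebra.single γ x : MonoidAlgebra Λ Γ) * D.e = conj γ D.e *
            MonoidAlgebra.single γ x := by
          unfold conj
          rw [mul_assoc (MonoidAlgebra.single γ 1 * D.e), MonoidAlgebra.single_mul_single,
            inv_mul_cancel, one_mul, mul_assoc, ← (MonoidAlgebra.single_one_comm x D.e), ← mul_assoc,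
            MonoidAlgebra.single_mul_single, one_mul, mul_one]
        rw [mul_assoc, e1, ← mul_assoc, h5 γ hγ, zero_mul]
        unfold Dat.f
        simp

end Pool.Agent.W2helper81.BD
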