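import Pool.Agent.W2helper43.BD.Stm

/-!
Project BD, piece RING: a sum of orthogonal conjugates of an idempotent
-/

set_option autoImplicit false

open CategoryTheory

namespace Pool.Agent.W2helper81.BD

open Pool.Agent.W2helper43.BD

section

variable {R : Type} [Ring R] {f : R}

lemma corner_iff (hf : IsIdempotentElem f) {r : R} :
    r ∈ Subsemigroup.corner f ↔ f * r = r ∧ r * f = r := Subsemigroup.mem_corner_iff hf

/-- an element of the corner -/
def mkC (hf : IsIdempotentElem f) (r : R) (h : f * r = r ∧ r * f = r) : hf.Corner :=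
  ⟨r, (corner_iff hf).2 h⟩

/-- the underlying element -/
def val (hf : IsIdempotentElem f) : hf.Corner →+ R where
  toFun r := r.1
  map_zero' := rfl
  map_add' _ _ := rfl

lemma val_mul (hf : IsIdempotentElem f) (a b : hf.Corner) : val hf (a * b) = val hf a * val hf b := rfl

lemma val_mk (hf : IsIdempotentElem f) (r : R) (h) : val hf (mkC hf r h) = r := rfl

lemma val_inj (hf : IsIdempotentElem f) {a b : hf.Corner} (h : val hf a = val hf b) : a = b :=
  Subtype.ext h

lemma val_left (hf : IsIdempotentElem f) (a : hf.Corner) : f * val hf a = val hf a :=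
  ((corner_iff hf).1 a.2).1

lemma val_right (hf : IsIdempotentElem f) (a : hf.Corner) : val hf a * f = val hf a :=
  ((corner_iff hf).1 a.2).2

end

theorem p_ring : P_RING := by
  intro R X _ _ _ u f hf ho F hFe hF
  have hff : f * f = f := hf
  -- orthogonality
  have hxy : ∀ x y : X, x ≠ y → f * ((u x)⁻¹ : Rˣ) * (u y * f) = 0 := by
    intro x y h
    have h1 := ho x y h
    have h2 : (((u x)⁻¹ : Rˣ) : R) * ((u x * f * ((u x)⁻¹ : Rˣ) : R) * (u y * f * ((u y)⁻¹ : Rˣ) : R)) * u y = 0 := by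
      rw [h1, mul_zero, zero_mul]
    have h3 : (((u x)⁻¹ : Rˣ) : R) * ((u x * f * ((u x)⁻¹ : Rˣ) : R) * (u y * f * ((u y)⁻¹ : Rˣ) : R)) * u y =
        (((u x)⁻¹ : Rˣ) * (u x : R)) * (f * ((u x)⁻¹ : Rˣ) * (u y * f)) * (((u y)⁻¹ : Rˣ) * (u y : R)) := by
      simp only [mul_assoc]
    rw [h3, Units.inv_mul, Units.inv_mul, one_mul, mul_one] at h2
    exact h2
  have hxx : ∀ x : X, f * ((u x)⁻¹ : Rˣ) * (u x * f) = f := by
    intro x
    have : f * ((u x)⁻¹ : Rˣ) * (u x * f) = f * (((u x)⁻¹ : Rˣ) * (u x : R)) * f := by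
      simp only [mul_assoc]
    rw [this, Units.inv_mul, mul_one, hff]
  -- products with `F`
  have hFx : ∀ x : X, F * (u x * f) = u x * f := by
    intro x
    rw [hFe, Finset.sum_mul, Finset.sum_eq_single x]
    · have : (u x * f * ((u x)⁻¹ : Rˣ) : R) * (u x * f) = u x * (f * ((u x)⁻¹ : Rˣ) * (u x * f)) := by
        simp only [mul_assoc]
      rw [this, hxx]
    · intro y _ hy
      have : (u y * f * ((u y)⁻¹ : Rˣ) : R) * (u x * f) = u y * (f * ((u y)⁻¹ : Rˣ) * (u x * f)) := by
        simp only [mul_assoc]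
      rw [this, hxy y x hy, mul_zero]
    · intro h
      exact absurd (Finset.mem_univ x) h
  have hxF : ∀ x : X, f * ((u x)⁻¹ : Rˣ) * F = f * ((u x)⁻¹ : Rˣ) := by
    intro x
    rw [hFe, Finset.mul_sum, Finset.sum_eq_single x]
    · have : f * ((u x)⁻¹ : Rˣ) * (u x * f * ((u x)⁻¹ : Rˣ) : R) =
          (f * ((u x)⁻¹ : Rˣ) * (u x * f)) * ((u x)⁻¹ : Rˣ) := by
        simp only [mul_assoc]
      rw [this, hxx]
    · intro y _ hy
      have : f * ((u x)⁻¹ : Rˣ) * (u y * f * ((u y)⁻¹ : Rˣ) : R) =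
          (f * ((u x)⁻¹ : Rˣ) * (u y * f)) * ((u y)⁻¹ : Rˣ) := by
        simp only [mul_assoc]
      rw [this, hxy x y hy.symm, zero_mul]
    · intro h
      exact absurd (Finset.mem_univ x) h
  -- the two maps
  let Φ : hF.Corner → Matrix X X hf.Corner := fun r => Matrix.of fun x y =>
    mkC hf (f * ((u x)⁻¹ : Rˣ) * val hF r * (u y * f)) (by
      constructor
      · simp only [← mul_assoc]
        rw [hff]
      · simp only [mul_assoc]
        rw [hff])
  let Ψ : Matrix X X hf.Corner → hF.Corner := fun m =>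
    mkC hF (∑ x, ∑ y, u x * val hf (m x y) * ((u y)⁻¹ : Rˣ)) (by
      constructor
      · rw [Finset.mul_sum]
        refine Finset.sum_congr rfl fun x _ => ?_
        rw [Finset.mul_sum]
        refine Finset.sum_congr rfl fun y _ => ?_
        rw [← val_left hf (m x y)]
        have : F * (u x * (f * val hf (m x y)) * ((u y)⁻¹ : Rˣ)) =
            (F * (u x * f)) * val hf (m x y) * ((u y)⁻¹ : Rˣ) := by
          simp only [mul_assoc]
        rw [this, hFx]
        simp only [mul_assoc]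
      · rw [Finset.sum_mul]
        refine Finset.sum_congr rfl fun x _ => ?_
        rw [Finset.sum_mul]
        refine Finset.sum_congr rfl fun y _ => ?_
        rw [← val_right hf (m x y)]
        have : u x * (val hf (m x y) * f) * ((u y)⁻¹ : Rˣ) * F =
            u x * val hf (m x y) * (f * ((u y)⁻¹ : Rˣ) * F) := by
          simp only [mul_assoc]
        rw [this, hxF]
        simp only [mul_assoc])
  have hΨΦ : ∀ r, Ψ (Φ r) = r := by
    intro r
    apply val_inj
    show ∑ x, ∑ y, u x * (f * ((u x)⁻¹ : Rˣ) * val hF r * (u y * f)) * ((u y)⁻¹ : Rˣ) = val hF r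
    have h1 : ∑ x, ∑ y, u x * (f * ((u x)⁻¹ : Rˣ) * val hF r * (u y * f)) * ((u y)⁻¹ : Rˣ) =
        (∑ x, (u x * f * ((u x)⁻¹ : Rˣ) : R)) * val hF r * ∑ y, (u y * f * ((u y)⁻¹ : Rˣ) : R) := by
      rw [Finset.sum_mul, Finset.sum_mul]
      refine Finset.sum_congr rfl fun x _ => ?_
      rw [Finset.mul_sum]
      refine Finset.sum_congr rfl fun y _ => ?_
      simp only [mul_assoc]
    rw [h1, ← hFe, val_left, val_right]
  have hΦΨ : ∀ m, Φ (Ψ m) = m := by
    intro m
    ext x' y'
    apply val_inj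
    show f * ((u x')⁻¹ : Rˣ) * (∑ x, ∑ y, u x * val hf (m x y) * ((u y)⁻¹ : Rˣ)) * (u y' * f) =
      val hf (m x' y')
    have h1 : f * ((u x')⁻¹ : Rˣ) * (∑ x, ∑ y, u x * val hf (m x y) * ((u y)⁻¹ : Rˣ)) * (u y' * f) =
        ∑ x, ∑ y, (f * ((u x')⁻¹ : Rˣ) * (u x * f)) * val hf (m x y) *
          (f * ((u y)⁻¹ : Rˣ) * (u y' * f)) := by
      rw [Finset.mul_sum, Finset.sum_mul]
      refine Finset.sum_congr rfl fun x _ => ?_
      rw [Finset.mul_sum, Finset.sum_mul]
      refine Finset.sum_congr rfl fun y _ => ?_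
      have e1 : val hf (m x y) = f * val hf (m x y) * f := by rw [val_left, val_right]
      rw [e1]
      simp only [mul_assoc]
      simp only [← mul_assoc f f, hff]
    rw [h1, Finset.sum_eq_single x', Finset.sum_eq_single y', hxx, hxx, val_left, val_right]
    · intro y _ hy
      rw [hxy y y' hy, mul_zero]
    · intro h
      exact absurd (Finset.mem_univ _) h
    · intro x _ hx
      refine Finset.sum_eq_zero fun y _ => ?_
      rw [hxy x' x hx.symm, zero_mul, zero_mul]
    · intro h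
      exact absurd (Finset.mem_univ _) h
  refine ⟨{ toFun := Φ, invFun := Ψ, left_inv := hΨΦ, right_inv := hΦΨ, map_mul' := ?_, map_add' := ?_ }⟩
  · intro r s
    ext x z
    apply val_inj
    rw [Matrix.mul_apply, map_sum]
    show f * ((u x)⁻¹ : Rˣ) * (val hF r * val hF s) * (u z * f) =
      ∑ y, (f * ((u x)⁻¹ : Rˣ) * val hF r * (u y * f)) * (f * ((u y)⁻¹ : Rˣ) * val hF s * (u z * f))
    have h1 : ∑ y, (f * ((u x)⁻¹ : Rˣ) * val hF r * (u y * f)) * (f * ((u y)⁻¹ : Rˣ) * val hF s * (u z * f)) =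
        f * ((u x)⁻¹ : Rˣ) * val hF r * (∑ y, (u y * f * ((u y)⁻¹ : Rˣ) : R)) * val hF s * (u z * f) := by
      rw [Finset.mul_sum, Finset.sum_mul, Finset.sum_mul]
      refine Finset.sum_congr rfl fun y _ => ?_
      simp only [mul_assoc]
      simp only [← mul_assoc f f, hff]
    rw [h1, ← hFe, mul_assoc (f * ((u x)⁻¹ : Rˣ)) (val hF r) F, val_right]
    simp only [mul_assoc]
  · intro r s
    ext x z
    apply val_inj
    show f * ((u x)⁻¹ : Rˣ) * (val hF r + val hF s) * (u z * f) =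
      f * ((u x)⁻¹ : Rˣ) * val hF r * (u z * f) + f * ((u x)⁻¹ : Rˣ) * val hF s * (u z * f)
    rw [mul_add, add_mul]

end Pool.Agent.W2helper81.BD
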